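import Pool.Agent.Q41.ZP.Count3
import Pool.Agent.Q116.ZE.Pow
import Pool.Agent.Results.MP_dd1803_nt.EllipticScaledImages

/-!
# MP_dd1803_nt: Zilber-Pink in split semiabelian varieties for the members of multi-parameter families
of scalings, with few exceptions

The setting is that of the starting file `EllipticScaledImages`, whose definitions are used here:
`𝔖 = ∏_g E_g^(n_g) × G_m^q` with arbitrary elliptic curves `E_g : y² = x³ + A_g x + B_g`; a complex
projective algebraic set `Y` of any dimension, defined over a countable field `K`, with quotients of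
forms `a_s / b_s`, one for every coordinate `x (P_{g,i})`, `u_j`, no point of `Y` lying on `m + 1` of
their divisors (`IsMap`); and the set `X_c ⊆ 𝔖` of all points with
`x (P_{g,i}) = a_{g,i} (y) / (c_{g,i} b_{g,i} (y))` and `u_j = a_j (y) / (c_j b_j (y))` for a point
`y` of `Y` (`scaled`). `NoAtypical`: `X_c` has no atypical intersection with the translates `Z` of
algebraic subgroups by points of the division hull of a finitely generated subgroup `Γ` of `𝔖 (K)`
(every point of `X_c ∩ Z` has transcendence degree at most `m - codim Z` over `K`, every irreducible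
constructible subset has dimension at most `m - codim Z`). The scalings `c_{g,i}` are `β`-th roots of
positive integers, `β` a large prime number, and the `c_j` are positive integers (`IsScaling`).

Here `f_1, …, f_L`, with `L = (q - 1) 2 ^ q + 1`, are polynomials in any number `s` of parameters
`t_1, …, t_s` with integral coefficients, every `f_l` having a nonconstant irreducible factor `P_l` of
degree at most `k` which does not divide the other `f_l'`, and `g₁ i`, `g₂ j` are polynomials not
divisible by the `P_l`. For `ε > 0` there is a constant `C` such that for all prime numbers `β > M` for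
which `P_l ^ β` does not divide `f_l`, and for all exponents with `GoodExpMod`, the set `X_c` with
`c_{g,i} ^ β = |g₁ (g,i) (t)| ∏_l |f_l (t)| ^ (e_l (g,i))` and
`c_j = |g₂ j (t)| ∏_l |f_l (t)| ^ (a'_l j)` has no atypical intersections, for all integral points
`t` with `|t_i| ≤ H` but at most `C H ^ (s - 1 + k / β + ε)` of the `(2 H + 1) ^ s`.

The proof: `EllipticScaledImages` shows that there are no atypical intersections if the exponents of
these integers at `L` large primes are in general position. By Hilbert's irreducibility theorem with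
sieve bounds (`Pool.Agent.Q41.ZP`) for all but few `t` the value `P_l (t)` has a large prime divisor
`p_l` with an exponent not divisible by `β` which does not divide the values of the other polynomials.
-/

set_option autoImplicit false

namespace Pool.Agent.Results.MP_dd1803_nt.MultiparameterFamilies

open MvPolynomial Pool.Agent.W466.EP Pool.Agent.W282.ZP Pool.Agent.W282.LF
open Pool.Agent.Results.MP_dd1803_nt.EllipticScaledImages

/-- The condition on the exponents: the exponents `e l i` of the elliptic coordinates are at least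
`β`, not divisible by `β`, and not congruent modulo `β` for different coordinates; any `q` of the
vectors `a l` are linearly independent. (For example `e l i = β + 1 + σ i` with an injective `σ`
with values below `β - 1` and `a l j = (l + 1) ^ j`.) -/
def GoodExpMod {α : Type} (q β : ℕ) (e : Fin ((q - 1) * 2 ^ q + 1) → α → ℕ)
    (a : Fin ((q - 1) * 2 ^ q + 1) → Fin q → ℕ) : Prop :=
  (∀ l i, β ≤ e l i ∧ ¬ β ∣ e l i) ∧ (∀ l i j, i ≠ j → ¬ e l i ≡ e l j [MOD β]) ∧
    ∀ I : Finset (Fin ((q - 1) * 2 ^ q + 1)), I.card = q → ∀ γ : Fin q → ℤ,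
      (∀ l ∈ I, ∑ j, γ j * (a l j : ℤ) = 0) → γ = 0

/-- Zilber-Pink and Mordell-Lang with no atypical intersections for the members of multi-parameter
families of scalings of a projective algebraic set mapped to `∏_g E_g^(n_g) × G_m^q`, with few
exceptions. -/
theorem result {κ : Type*} (K : Subfield ℂ) [Countable K] (N r q m : ℕ) (A B : Fin r → ℂ)
    (hA : ∀ g, A g ∈ K) (hB : ∀ g, B g ∈ K) (n : Fin r → ℕ)
    (G : κ → MvPolynomial (Fin (N + 1)) K) (a b : Ind n q → MvPolynomial (Fin (N + 1)) K)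
    (dg : Ind n q → ℕ) (hY : IsMap G a b dg m)
    (Γe : ∀ g, Finset (crv (A g) (B g)).Point) (hΓe : ∀ g, ∀ P ∈ Γe g, Rat K P)
    (Γm : Finset ℂˣ) (hΓm : ∀ γ ∈ Γm, (γ : ℂ) ∈ K) :
    ∃ M : ℕ, ∀ (s k : ℕ) (f P : Fin ((q - 1) * 2 ^ q + 1) → MvPolynomial (Fin s) ℤ),
      (∀ l, Irreducible (P l) ∧ 1 ≤ (P l).totalDegree ∧ (P l).totalDegree ≤ k) →
      (∀ l, f l ≠ 0 ∧ P l ∣ f l) → (∀ l l', l ≠ l' → ¬ P l ∣ f l') →
      ∀ (g₁ : (g : Fin r) × Fin (n g) → MvPolynomial (Fin s) ℤ)
        (g₂ : Fin q → MvPolynomial (Fin s) ℤ),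
      (∀ l i, ¬ P l ∣ g₁ i) → (∀ l j, ¬ P l ∣ g₂ j) →
      ∀ ε : ℝ, 0 < ε → ∃ C : ℝ, ∀ β : ℕ, β.Prime → M < β → (∀ l, ¬ P l ^ β ∣ f l) →
        ∀ (e : Fin ((q - 1) * 2 ^ q + 1) → (g : Fin r) × Fin (n g) → ℕ)
          (a' : Fin ((q - 1) * 2 ^ q + 1) → Fin q → ℕ), GoodExpMod q β e a' →
        ∀ H : ℕ, 1 ≤ H →
          (Set.ncard {t : Fin s → ℤ | (∀ j, |t j| ≤ (H : ℤ)) ∧ ¬ ∀ c : Ind n q → ℂ,
            IsScaling β c
              (fun i => (eval t (g₁ i)).natAbs * ∏ l, (eval t (f l)).natAbs ^ e l i)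
              (fun j => (eval t (g₂ j)).natAbs * ∏ l, (eval t (f l)).natAbs ^ a' l j) →
              NoAtypical K Γe Γm m (scaled (A := A) (B := B) G a b c)} : ℝ) ≤
          C * (H : ℝ) ^ ((s : ℝ) - 1 + (k : ℝ) / β + ε) := by
  classical
  obtain ⟨M, D, C₀, hD⟩ := EllipticScaledImages.result K N r q m A B hA hB n G a b dg hY Γe hΓe Γm
    hΓm
  refine ⟨M, fun s k f P hP hf hff g₁ g₂ hg₁ hg₂ ε hε => ?_⟩
  choose μ h hh hfe using fun l => WfDvdMonoid.max_power_factor (hf l).1 (hP l).1
  -- the cofactors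
  let cof : Fin ((q - 1) * 2 ^ q + 1) →
      (Fin ((q - 1) * 2 ^ q + 1) ⊕ ((g : Fin r) × Fin (n g)) ⊕ Fin q) →
        MvPolynomial (Fin s) ℤ :=
    fun l => Sum.elim (fun l' => if l' = l then h l else f l') (Sum.elim g₁ g₂)
  have hcof : ∀ l i, ¬ P l ∣ cof l i := by
    rintro l (l' | i | j)
    · change ¬ P l ∣ if l' = l then h l else f l'
      split_ifs with hl
      · exact hh l
      · exact hff l l' (Ne.symm hl)
    · exact hg₁ l i
    · exact hg₂ l j
  obtain ⟨C, hC⟩ := Pool.Agent.Q41.ZP.count_sym3 P (fun l => (hP l).1)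
    (fun l => by have := (hP l).2.1; omega)
    (fun l l' hll hd => hff l l' hll (hd.trans (hf l').2)) cof hcof D (fun l => (hP l).2.2) hε
  refine ⟨C, fun β hβ hMβ hPβ e a' hea H hH => ?_⟩
  obtain ⟨hmain, -⟩ := hD β hβ hMβ
  refine le_trans (Nat.cast_le.2 (Set.ncard_le_ncard ?_ ?_)) (hC β hβ.one_lt.le H hH)
  · rintro t ⟨htH, ht⟩
    refine ⟨htH, fun hgood => ht ?_⟩
    obtain ⟨hP0, p, hp, hp1, hp2⟩ := hgood
    have hcop : ∀ l l', l ≠ l' → ¬ (p l : ℤ) ∣ eval t (f l') := by
      intro l l' hll hd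
      refine hp2 l (Sum.inl l') ?_
      change (p l : ℤ) ∣ eval t (if l' = l then h l else f l')
      rw [if_neg (Ne.symm hll)]
      exact hd
    have hph : ∀ l, ¬ (p l : ℤ) ∣ eval t (h l) := by
      intro l hd
      refine hp2 l (Sum.inl l) ?_
      change (p l : ℤ) ∣ eval t (if l = l then h l else f l)
      rw [if_pos rfl]
      exact hd
    have hfev : ∀ l, eval t (f l) = eval t (P l) ^ μ l * eval t (h l) := by
      intro l
      conv_lhs => rw [hfe l]
      rw [map_mul, map_pow]
    have hμ1 : ∀ l, 1 ≤ μ l := by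
      intro l
      rcases Nat.eq_zero_or_pos (μ l) with h0 | h0
      · exfalso
        have h1 := hfe l
        rw [h0, pow_zero, one_mul] at h1
        exact hh l (h1 ▸ (hf l).2)
      · exact h0
    have hμβ : ∀ l, μ l < β := by
      intro l
      by_contra hcon
      refine hPβ l ?_
      rw [hfe l]
      exact (pow_dvd_pow _ (not_lt.1 hcon)).mul_right _
    have hh0 : ∀ l, eval t (h l) ≠ 0 := fun l h0 => hph l (h0 ▸ dvd_zero _)
    have hf0 : ∀ l, eval t (f l) ≠ 0 := fun l => by
      rw [hfev]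
      exact mul_ne_zero (pow_ne_zero _ (hP0 l)) (hh0 l)
    intro c hc
    refine hmain c _ _ hc (Pool.Agent.Q116.ZE.spreadE_of_exps hβ hea.1 hea.2.1 hea.2.2
      (fun l => Int.natAbs_ne_zero.2 (hf0 l)) (fun i => Int.natAbs_ne_zero.2 fun h0 => ?_)
      (fun j => Int.natAbs_ne_zero.2 fun h0 => ?_) p (fun l => ⟨(hp l).1, (hp l).2.1⟩)
      (fun l => ?_) ?_ ?_ ?_)
    · exact hp2 ⟨0, Nat.succ_pos _⟩ (Sum.inr (Sum.inl i)) (show (_ : ℤ) ∣ eval t (g₁ i) from
        h0 ▸ dvd_zero _)
    · exact hp2 ⟨0, Nat.succ_pos _⟩ (Sum.inr (Sum.inr j)) (show (_ : ℤ) ∣ eval t (g₂ j) from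
        h0 ▸ dvd_zero _)
    · rw [hfev, Int.natAbs_mul, Int.natAbs_pow,
        Nat.factorization_mul (pow_ne_zero _ (Int.natAbs_ne_zero.2 (hP0 l)))
          (Int.natAbs_ne_zero.2 (hh0 l)), Nat.factorization_pow]
      simp only [Finsupp.coe_add, Finsupp.coe_smul, Pi.add_apply, Pi.smul_apply, smul_eq_mul]
      rw [Nat.factorization_eq_zero_of_not_dvd (fun hd => hph l (Int.natCast_dvd.2 hd)), add_zero]
      intro hd
      rcases hβ.dvd_mul.1 hd with h1 | h1
      · exact absurd (Nat.le_of_dvd (hμ1 l) h1) (not_le.2 (hμβ l))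
      · exact (hp l).2.2 h1
    · exact fun l l' hll hd => hcop l l' hll (Int.natCast_dvd.2 hd)
    · exact fun l i hd => hp2 l (Sum.inr (Sum.inl i)) (Int.natCast_dvd.2 hd)
    · exact fun l j hd => hp2 l (Sum.inr (Sum.inr j)) (Int.natCast_dvd.2 hd)
  · refine Set.Finite.subset (Set.Finite.pi' fun _ : Fin s => Set.finite_Icc (-(H : ℤ)) H) ?_
    rintro t ⟨ht, -⟩ j
    exact abs_le.1 (ht j)

end Pool.Agent.Results.MP_dd1803_nt.MultiparameterFamilies
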