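import Pool.Agent.Q116.ZE.Pow
import Pool.Agent.Results.MP_dd1803_nt.EllipticScaledImages

/-!
# MP_dd1803_nt: Zilber-Pink in split semiabelian varieties for the members of polynomial families of
scalings, with very few exceptions

The setting is that of the starting file `EllipticScaledImages`, whose definitions are used here:
`𝔖 = ∏_g E_g^(n_g) × G_m^q` with arbitrary elliptic curves `E_g : y² = x³ + A_g x + B_g`; a complex
projective algebraic set `Y` of any dimension, defined over a countable field `K`, with quotients of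
forms `a_s / b_s`, one for every coordinate `x (P_{g,i})`, `u_j`, no point of `Y` lying on `m + 1` of
their divisors (`IsMap`); and the set `X_c ⊆ 𝔖` of all points with
`x (P_{g,i}) = a_{g,i} (y) / (c_{g,i} b_{g,i} (y))` and `u_j = a_j (y) / (c_j b_j (y))` for a point
`y` of `Y` (`scaled`). `NoAtypical`: `X_c` has no atypical intersection with the translates `Z` of
algebraic subgroups by points of the division hull of a finitely generated subgroup `Γ` of `𝔖 (K)`
(every point of `X_c ∩ Z` has transcendence degree at most `m - codim Z` over `K`, every irreducible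
constructible subset has dimension at most `m - codim Z`). The scalings `c_{g,i}` are `β`-th roots of
positive integers, `β` a large prime number, and the `c_j` are positive integers (`IsScaling`).

The starting file shows that there are no atypical intersections if the exponents of these integers at
`L = (q - 1) 2 ^ q + 1` large primes are in general position, and deduces this for the members of
the family `c_{g,i} ^ β = ∏_{l < L} (t + l) ^ (e_l (g,i))`, `c_j = ∏_{l < L} (t + l) ^ (a'_l j)` with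
at most `O (√H)` exceptions `t ≤ H`. Here `f_1, …, f_L` are arbitrary pairwise coprime polynomials of
degrees between `1` and `k` with integral coefficients, and `g₁ i`, `g₂ j` are arbitrary nonzero
polynomials coprime to the `f_l`. There are constants `C` and `E` such that for all prime numbers
`β > M` and all exponents with `GoodExpMod` (for example those of the starting file) the set `X_c` with
`c_{g,i} ^ β = |g₁ (g,i) (t)| ∏_l |f_l (t)| ^ (e_l (g,i))` and
`c_j = |g₂ j (t)| ∏_l |f_l (t)| ^ (a'_l j)` has no atypical intersections, for all integers `|t| ≤ H`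
with at most `C H ^ (k / β) (1 + log H) ^ E` exceptions. The exponent `k / β` of `H` tends to `0` if
`β` tends to infinity, and `C`, `E` do not depend on `β`.

The proof: if `t` is an exception then one of the values `f_l (t)` is `0` or a product of a `β`-th power
and of a number all of whose prime divisors are bounded, or one of the `g₁ i (t)`, `g₂ j (t)` is `0`.
-/

set_option autoImplicit false

namespace Pool.Agent.Results.MP_dd1803_nt.PolynomialFamilies

open MvPolynomial Pool.Agent.W466.EP Pool.Agent.W282.ZP Pool.Agent.W282.LF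
open Pool.Agent.Results.MP_dd1803_nt.EllipticScaledImages

/-- The condition on the exponents: the exponents `e l i` of the elliptic coordinates are larger than
`β`, not divisible by `β`, and not congruent modulo `β` for different coordinates; any `q` of the
vectors `a l` are linearly independent. (For example `e l i = β + 1 + σ i` with an injective `σ`
with values below `β - 1` and `a l j = (l + 1) ^ j`.) -/
def GoodExpMod {α : Type} (q β : ℕ) (e : Fin ((q - 1) * 2 ^ q + 1) → α → ℕ)
    (a : Fin ((q - 1) * 2 ^ q + 1) → Fin q → ℕ) : Prop :=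
  (∀ l i, β ≤ e l i ∧ ¬ β ∣ e l i) ∧ (∀ l i j, i ≠ j → ¬ e l i ≡ e l j [MOD β]) ∧
    ∀ I : Finset (Fin ((q - 1) * 2 ^ q + 1)), I.card = q → ∀ γ : Fin q → ℤ,
      (∀ l ∈ I, ∑ j, γ j * (a l j : ℤ) = 0) → γ = 0

/-- Zilber-Pink and Mordell-Lang with no atypical intersections for the members of polynomial
families of scalings of a projective algebraic set mapped to `∏_g E_g^(n_g) × G_m^q`, with very few
exceptions. -/
theorem result {κ : Type*} (K : Subfield ℂ) [Countable K] (N r q m : ℕ) (A B : Fin r → ℂ)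
    (hA : ∀ g, A g ∈ K) (hB : ∀ g, B g ∈ K) (n : Fin r → ℕ)
    (G : κ → MvPolynomial (Fin (N + 1)) K) (a b : Ind n q → MvPolynomial (Fin (N + 1)) K)
    (dg : Ind n q → ℕ) (hY : IsMap G a b dg m)
    (Γe : ∀ g, Finset (crv (A g) (B g)).Point) (hΓe : ∀ g, ∀ P ∈ Γe g, Rat K P)
    (Γm : Finset ℂˣ) (hΓm : ∀ γ ∈ Γm, (γ : ℂ) ∈ K) :
    ∃ M : ℕ, ∀ (f : Fin ((q - 1) * 2 ^ q + 1) → Polynomial ℤ) (k : ℕ),
      (∀ l, 1 ≤ (f l).natDegree ∧ (f l).natDegree ≤ k) →
      (∀ l l', l ≠ l' →
        IsCoprime ((f l).map (Int.castRingHom ℚ)) ((f l').map (Int.castRingHom ℚ))) →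
      ∀ (g₁ : (g : Fin r) × Fin (n g) → Polynomial ℤ) (g₂ : Fin q → Polynomial ℤ),
      (∀ i, g₁ i ≠ 0) → (∀ j, g₂ j ≠ 0) →
      (∀ l i, IsCoprime ((f l).map (Int.castRingHom ℚ)) ((g₁ i).map (Int.castRingHom ℚ))) →
      (∀ l j, IsCoprime ((f l).map (Int.castRingHom ℚ)) ((g₂ j).map (Int.castRingHom ℚ))) →
      ∃ (C : ℝ) (E : ℕ), ∀ β : ℕ, β.Prime → M < β →
        ∀ (e : Fin ((q - 1) * 2 ^ q + 1) → (g : Fin r) × Fin (n g) → ℕ)
          (a' : Fin ((q - 1) * 2 ^ q + 1) → Fin q → ℕ), GoodExpMod q β e a' →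
        ∀ H : ℕ, 1 ≤ H →
          (Set.ncard {t : ℤ | |t| ≤ H ∧ ¬ ∀ c : Ind n q → ℂ,
            IsScaling β c (fun i => ((g₁ i).eval t).natAbs * ∏ l, ((f l).eval t).natAbs ^ e l i)
              (fun j => ((g₂ j).eval t).natAbs * ∏ l, ((f l).eval t).natAbs ^ a' l j) →
              NoAtypical K Γe Γm m (scaled (A := A) (B := B) G a b c)} : ℝ) ≤
          C * (H : ℝ) ^ ((k : ℝ) / β) * (1 + Real.log H) ^ E := by
  classical
  obtain ⟨M, D, C₀, hD⟩ := EllipticScaledImages.result K N r q m A B hA hB n G a b dg hY Γe hΓe Γm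
    hΓm
  refine ⟨M, fun f k hf hcop g₁ g₂ hg₁ hg₂ hfg₁ hfg₂ => ?_⟩
  choose! ρ hρ0 hρ using fun l l' (h : l ≠ l') => Pool.Agent.Q41.ZP.bezout (hcop l l' h)
  choose ρ₁ hρ₁0 hρ₁ using fun l i => Pool.Agent.Q41.ZP.bezout (hfg₁ l i)
  choose ρ₂ hρ₂0 hρ₂ using fun l j => Pool.Agent.Q41.ZP.bezout (hfg₂ l j)
  set E : ℕ := D + (∑ l, ∑ l', (ρ l l').natAbs) + (∑ l, ∑ i, (ρ₁ l i).natAbs) +
    ∑ l, ∑ j, (ρ₂ l j).natAbs with hE
  choose C hC0 hC using fun l => Pool.Agent.Q116.ZE.card_values (f l) (hf l).1 (hf l).2 E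
  refine ⟨∑ l, C l + ∑ i, ((g₁ i).natDegree : ℝ) + ∑ j, ((g₂ j).natDegree : ℝ), E + 1,
    fun β hβ hMβ e a' hea H hH => ?_⟩
  obtain ⟨hmain, -⟩ := hD β hβ hMβ
  set box : Finset ℤ := Finset.Icc (-(H : ℤ)) H with hbox
  let T : Fin ((q - 1) * 2 ^ q + 1) → Finset ℤ := fun l => box.filter fun t =>
    (f l).eval t = 0 ∨ Pool.Agent.Q116.ZE.NearPow β E ((f l).eval t).natAbs
  have hsub : {t : ℤ | |t| ≤ H ∧ ¬ ∀ c : Ind n q → ℂ,
            IsScaling β c (fun i => ((g₁ i).eval t).natAbs * ∏ l, ((f l).eval t).natAbs ^ e l i)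
              (fun j => ((g₂ j).eval t).natAbs * ∏ l, ((f l).eval t).natAbs ^ a' l j) →
              NoAtypical K Γe Γm m (scaled (A := A) (B := B) G a b c)} ⊆
      ((Finset.univ.biUnion T ∪ Finset.univ.biUnion fun i => (g₁ i).roots.toFinset) ∪
        Finset.univ.biUnion fun j => (g₂ j).roots.toFinset : Finset ℤ) := by
    rintro t ⟨htH, ht⟩
    rw [Finset.mem_coe, Finset.mem_union, Finset.mem_union]
    by_contra hcon
    rw [not_or, not_or] at hcon
    obtain ⟨⟨h1, h2⟩, h3⟩ := hcon
    simp only [Finset.mem_biUnion, Finset.mem_univ, true_and, not_exists, Multiset.mem_toFinset]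
      at h1 h2 h3
    have h1' : ∀ l, (f l).eval t ≠ 0 ∧
        ¬ Pool.Agent.Q116.ZE.NearPow β E ((f l).eval t).natAbs := by
      intro l
      rw [← not_or]
      intro h
      exact h1 l (Finset.mem_filter.2 ⟨Finset.mem_Icc.2 (abs_le.1 htH), h⟩)
    have h2' : ∀ i, (g₁ i).eval t ≠ 0 := fun i h =>
      h2 i ((Polynomial.mem_roots (hg₁ i)).2 h)
    have h3' : ∀ j, (g₂ j).eval t ≠ 0 := fun j h =>
      h3 j ((Polynomial.mem_roots (hg₂ j)).2 h)
    apply ht
    intro c hc
    have h4 : ∀ l, ∃ p : ℕ, p.Prime ∧ E < p ∧ ¬ β ∣ (((f l).eval t).natAbs).factorization p := by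
      intro l
      have h5 := (h1' l).2
      unfold Pool.Agent.Q116.ZE.NearPow at h5
      push Not at h5
      exact h5
    choose p hp hpE hpβ using h4
    have hpd : ∀ l, p l ∣ ((f l).eval t).natAbs := by
      intro l
      by_contra h
      exact hpβ l (by rw [Nat.factorization_eq_zero_of_not_dvd h]; exact dvd_zero β)
    refine hmain c _ _ hc (Pool.Agent.Q116.ZE.spreadE_of_exps hβ hea.1 hea.2.1 hea.2.2
      (fun l => Int.natAbs_ne_zero.2 (h1' l).1) (fun i => Int.natAbs_ne_zero.2 (h2' i))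
      (fun j => Int.natAbs_ne_zero.2 (h3' j)) p (fun l => ⟨hp l, by have := hpE l; omega⟩)
      hpβ ?_ ?_ ?_)
    · intro l l' hll h
      have h5 := hρ l l' hll t (p l) (Int.natCast_dvd.2 (hpd l)) (Int.natCast_dvd.2 h)
      have h6 := Nat.le_of_dvd (Int.natAbs_pos.2 (hρ0 l l' hll)) (Int.natCast_dvd.1 h5)
      have h7 : (ρ l l').natAbs ≤ ∑ l, ∑ l', (ρ l l').natAbs :=
        (Finset.single_le_sum (f := fun l' => (ρ l l').natAbs) (fun _ _ => Nat.zero_le _)
          (Finset.mem_univ l')).trans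
          (Finset.single_le_sum (f := fun l => ∑ l', (ρ l l').natAbs) (fun _ _ => Nat.zero_le _)
            (Finset.mem_univ l))
      have h8 := hpE l
      omega
    · intro l i h
      have h5 := hρ₁ l i t (p l) (Int.natCast_dvd.2 (hpd l)) (Int.natCast_dvd.2 h)
      have h6 := Nat.le_of_dvd (Int.natAbs_pos.2 (hρ₁0 l i)) (Int.natCast_dvd.1 h5)
      have h7 : (ρ₁ l i).natAbs ≤ ∑ l, ∑ i, (ρ₁ l i).natAbs :=
        (Finset.single_le_sum (f := fun i => (ρ₁ l i).natAbs) (fun _ _ => Nat.zero_le _)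
          (Finset.mem_univ i)).trans
          (Finset.single_le_sum (f := fun l => ∑ i, (ρ₁ l i).natAbs) (fun _ _ => Nat.zero_le _)
            (Finset.mem_univ l))
      have h8 := hpE l
      omega
    · intro l j h
      have h5 := hρ₂ l j t (p l) (Int.natCast_dvd.2 (hpd l)) (Int.natCast_dvd.2 h)
      have h6 := Nat.le_of_dvd (Int.natAbs_pos.2 (hρ₂0 l j)) (Int.natCast_dvd.1 h5)
      have h7 : (ρ₂ l j).natAbs ≤ ∑ l, ∑ j, (ρ₂ l j).natAbs :=
        (Finset.single_le_sum (f := fun j => (ρ₂ l j).natAbs) (fun _ _ => Nat.zero_le _)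
          (Finset.mem_univ j)).trans
          (Finset.single_le_sum (f := fun l => ∑ j, (ρ₂ l j).natAbs) (fun _ _ => Nat.zero_le _)
            (Finset.mem_univ l))
      have h8 := hpE l
      omega
  have hHr : (1 : ℝ) ≤ H := by exact_mod_cast hH
  set W : ℝ := (H : ℝ) ^ ((k : ℝ) / β) * (1 + Real.log H) ^ (E + 1) with hW
  have hW1 : 1 ≤ W := by
    have h5 : (1 : ℝ) ≤ (H : ℝ) ^ ((k : ℝ) / β) := Real.one_le_rpow hHr (by positivity)
    have h6 : (1 : ℝ) ≤ (1 + Real.log H) ^ (E + 1) :=
      one_le_pow₀ (by linarith [Real.log_nonneg hHr])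
    nlinarith
  have hroots : ∀ g : Polynomial ℤ, ((g.roots.toFinset.card : ℕ) : ℝ) ≤ g.natDegree * W := by
    intro g
    have h5 : (g.roots.toFinset.card : ℝ) ≤ g.natDegree := by
      exact_mod_cast (Multiset.toFinset_card_le g.roots).trans (Polynomial.card_roots' g)
    have h6 : (0 : ℝ) ≤ g.natDegree := Nat.cast_nonneg _
    nlinarith
  have h7 : (Set.ncard {t : ℤ | |t| ≤ H ∧ ¬ ∀ c : Ind n q → ℂ,
            IsScaling β c (fun i => ((g₁ i).eval t).natAbs * ∏ l, ((f l).eval t).natAbs ^ e l i)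
              (fun j => ((g₂ j).eval t).natAbs * ∏ l, ((f l).eval t).natAbs ^ a' l j) →
              NoAtypical K Γe Γm m (scaled (A := A) (B := B) G a b c)} : ℝ) ≤
      (((∑ l, (T l).card + ∑ i, ((g₁ i).roots.toFinset).card) +
        ∑ j, ((g₂ j).roots.toFinset).card : ℕ) : ℝ) := by
    refine Nat.cast_le.2 ((Set.ncard_le_ncard hsub (Finset.finite_toSet _)).trans ?_)
    rw [Set.ncard_coe_finset]
    exact (Finset.card_union_le _ _).trans (Nat.add_le_add ((Finset.card_union_le _ _).trans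
      (Nat.add_le_add Finset.card_biUnion_le Finset.card_biUnion_le)) Finset.card_biUnion_le)
  refine h7.trans ?_
  push_cast
  calc ∑ l, ((T l).card : ℝ) + ∑ i, (((g₁ i).roots.toFinset).card : ℝ) +
        ∑ j, (((g₂ j).roots.toFinset).card : ℝ)
      ≤ ∑ l, C l * W + ∑ i, ((g₁ i).natDegree : ℝ) * W + ∑ j, ((g₂ j).natDegree : ℝ) * W := by
        refine add_le_add (add_le_add (Finset.sum_le_sum fun l _ => ?_)
          (Finset.sum_le_sum fun i _ => hroots _)) (Finset.sum_le_sum fun j _ => hroots _)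
        have h8 := hC l β hβ.one_lt.le H hH
        rw [mul_assoc] at h8
        exact h8
    _ = _ := by
        rw [← Finset.sum_mul, ← Finset.sum_mul, ← Finset.sum_mul, ← add_mul, ← add_mul, hW,
          mul_assoc]

end Pool.Agent.Results.MP_dd1803_nt.PolynomialFamilies
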