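import Pool.Agent.Q116.ZE.Count
import Pool.Agent.Results.MP_dd1803_nt.EllipticScaledImages

/-!
# MP_dd1803_nt: Zilber-Pink for almost all scalings by roots of `S`-units in split semiabelian
varieties

The setting is that of the starting file `EllipticScaledImages`, whose definitions are used here:
`𝔖 = ∏_g E_g^(n_g) × G_m^q` with arbitrary elliptic curves `E_g : y² = x³ + A_g x + B_g`; a complex
projective algebraic set `Y` of any dimension, defined over a countable field `K`, with quotients of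
forms `a_s / b_s`, one for every coordinate `x (P_{g,i})`, `u_j`, no point of `Y` lying on `m + 1` of
their divisors (`IsMap`); and the set `X_c ⊆ 𝔖` of all points with
`x (P_{g,i}) = a_{g,i} (y) / (c_{g,i} b_{g,i} (y))` and `u_j = a_j (y) / (c_j b_j (y))` for a point
`y` of `Y` (`scaled`). `NoAtypical`: `X_c` has no atypical intersection with the translates `Z` of
algebraic subgroups by points of the division hull of a finitely generated subgroup `Γ` of `𝔖 (K)`
(every point of `X_c ∩ Z` has transcendence degree at most `m - codim Z` over `K`, every irreducible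
constructible subset has dimension at most `m - codim Z`). The scalings `c_{g,i}` are `β`-th roots of
positive integers, `β` a large prime number, and the `c_j` are positive integers (`IsScaling`).

The starting file shows that there are no atypical intersections if the exponents of these integers at
`L = (q - 1) 2 ^ q + 1` large primes are in general position, and deduces this for the members of
one-parameter families with few exceptions. Here we consider scalings by `S`-units:

* Let `p_1, …, p_L` be any different primes larger than `D`, and let `e_l i`, `a'_l j` be exponents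
  with `GoodExp`. For all positive integers `b₁ i`, `b₂ j` prime to the `p_l` the set `X_c` with
  `c_{g,i} ^ β = b₁ (g,i) ∏_l p_l ^ (e_l (g,i))`, `c_j = b₂ j ∏_l p_l ^ (a'_l j)` has no atypical
  intersection. (So this is the case for a positive proportion of all vectors of integers.)

* Let `S` be any finite set of primes, at least `L` of which are larger than `D`, and let
  `n₀ = ∑ n_g`, `T = |S| (n₀ + q)`. Among the `H ^ T` matrices of exponents `1 ≤ e ≤ H` there are at
  most `L n₀ (n₀ + 2) / (2 β) * H ^ T + (L n₀ (β + n₀) + q L ^ q) * H ^ (T - 1)` for which the set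
  `X_c`, `c_{g,i} = ∏_{s ∈ S} s ^ (e_{s,(g,i)} / β)`, `c_j = ∏_{s ∈ S} s ^ (e_{s,j})` has an atypical
  intersection.

`D` does not depend on `β`, `S` and `H`. So for every `ε > 0` and every prime number `β` larger than a
constant the proportion of the exceptions is less than `ε` for all large `H`; for `n₀ = 0` (tori) it
is `O (1 / H)`.
-/

set_option autoImplicit false

namespace Pool.Agent.Results.MP_dd1803_nt.SUnitScalings

open MvPolynomial Pool.Agent.W466.EP Pool.Agent.W282.ZP Pool.Agent.W282.LF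
open Pool.Agent.Results.MP_dd1803_nt.EllipticScaledImages

/-- Zilber-Pink and Mordell-Lang with no atypical intersections for almost all scalings by roots of
`S`-units of a projective algebraic set mapped to `∏_g E_g^(n_g) × G_m^q`. -/
theorem result {κ : Type*} (K : Subfield ℂ) [Countable K] (N r q m : ℕ) (A B : Fin r → ℂ)
    (hA : ∀ g, A g ∈ K) (hB : ∀ g, B g ∈ K) (n : Fin r → ℕ)
    (G : κ → MvPolynomial (Fin (N + 1)) K) (a b : Ind n q → MvPolynomial (Fin (N + 1)) K)
    (dg : Ind n q → ℕ) (hY : IsMap G a b dg m)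
    (Γe : ∀ g, Finset (crv (A g) (B g)).Point) (hΓe : ∀ g, ∀ P ∈ Γe g, Rat K P)
    (Γm : Finset ℂˣ) (hΓm : ∀ γ ∈ Γm, (γ : ℂ) ∈ K) :
    ∃ M D : ℕ, ∀ β : ℕ, β.Prime → M < β →
      (∀ p : Fin ((q - 1) * 2 ^ q + 1) → ℕ, Function.Injective p →
        (∀ l, (p l).Prime ∧ D < p l) →
        ∀ (e : Fin ((q - 1) * 2 ^ q + 1) → (g : Fin r) × Fin (n g) → ℕ)
          (a' : Fin ((q - 1) * 2 ^ q + 1) → Fin q → ℕ), GoodExp q β e a' →
        ∀ (b₁ : (g : Fin r) × Fin (n g) → ℕ) (b₂ : Fin q → ℕ), (∀ i, b₁ i ≠ 0) →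
          (∀ j, b₂ j ≠ 0) → (∀ l i, ¬ p l ∣ b₁ i) → (∀ l j, ¬ p l ∣ b₂ j) →
        ∀ c : Ind n q → ℂ, IsScaling β c (fun i => b₁ i * ∏ l, p l ^ e l i)
          (fun j => b₂ j * ∏ l, p l ^ a' l j) →
          NoAtypical K Γe Γm m (scaled (A := A) (B := B) G a b c)) ∧
      ∀ S : Finset ℕ, (∀ s ∈ S, s.Prime) →
        (q - 1) * 2 ^ q + 1 ≤ (S.filter fun s => D < s).card → ∀ H : ℕ,
        (Set.ncard {e : S → Ind n q → ℕ | (∀ s i, 1 ≤ e s i ∧ e s i ≤ H) ∧
          ¬ ∀ c : Ind n q → ℂ, IsScaling β c (fun i => ∏ s : S, (s : ℕ) ^ e s (Sum.inl i))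
            (fun j => ∏ s : S, (s : ℕ) ^ e s (Sum.inr j)) →
            NoAtypical K Γe Γm m (scaled (A := A) (B := B) G a b c)} : ℝ) ≤
        ((q - 1) * 2 ^ q + 1 : ℕ) * (∑ g, n g : ℕ) * ((∑ g, n g : ℕ) + 2) / (2 * β) *
            (H : ℝ) ^ (S.card * (∑ g, n g + q)) +
          (((q - 1) * 2 ^ q + 1 : ℕ) * (∑ g, n g : ℕ) * (β + (∑ g, n g : ℕ)) +
            q * ((q - 1) * 2 ^ q + 1 : ℕ) ^ q) * (H : ℝ) ^ (S.card * (∑ g, n g + q) - 1) := by
  classical
  obtain ⟨M, D, C, hD⟩ := EllipticScaledImages.result K N r q m A B hA hB n G a b dg hY Γe hΓe Γm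
    hΓm
  refine ⟨M, D, fun β hβ hMβ => ?_⟩
  obtain ⟨hmain, -⟩ := hD β hβ hMβ
  refine ⟨?_, ?_⟩
  · intro p hinj hp e a' hea b₁ b₂ hb₁ hb₂ h1 h2 c hc
    refine hmain c _ _ hc (Pool.Agent.Q116.ZE.spreadE_of_primes hea (fun l => (hp l).1.ne_zero) hb₁
      hb₂ p hp (fun l => dvd_rfl) (fun l h => ?_) (fun l l' hll h => ?_) h1 h2)
    · have h3 : p l ^ 2 ∣ p l ^ 1 := by rwa [pow_one]
      have h4 := (Nat.pow_dvd_pow_iff_le_right (hp l).1.one_lt).1 h3
      omega
    · exact hll (hinj ((Nat.prime_dvd_prime_iff_eq (hp l).1 (hp l').1).1 h))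
  · intro S hS hL H
    -- the large primes in `S`
    let ro : Fin ((q - 1) * 2 ^ q + 1) → S := fun l =>
      ⟨(S.filter fun q => D < q).orderEmbOfCardLe hL l,
        (Finset.mem_filter.1 (Finset.orderEmbOfCardLe_mem _ hL l)).1⟩
    have hro : Function.Injective ro := by
      intro l l' h
      have h1 : (ro l : ℕ) = (ro l' : ℕ) := by rw [h]
      exact ((S.filter fun q => D < q).orderEmbOfCardLe hL).injective h1
    have hroD : ∀ l, D < (ro l : ℕ) := fun l =>
      (Finset.mem_filter.1 (Finset.orderEmbOfCardLe_mem _ hL l)).2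
    have hgood : ∀ e : S → Ind n q → ℕ,
        GoodExp q β (fun l i => e (ro l) (Sum.inl i)) (fun l j => e (ro l) (Sum.inr j)) →
        ∀ c : Ind n q → ℂ, IsScaling β c (fun i => ∏ s : S, (s : ℕ) ^ e s (Sum.inl i))
            (fun j => ∏ s : S, (s : ℕ) ^ e s (Sum.inr j)) →
            NoAtypical K Γe Γm m (scaled (A := A) (B := B) G a b c) := by
      intro e he c hc
      refine hmain c _ _ hc ⟨fun j => Finset.prod_ne_zero_iff.2 fun s _ =>
        pow_ne_zero _ (hS s s.2).ne_zero, fun l => ro l, fun l => ⟨hS _ (ro l).2, hroD l⟩, ?_, ?_, ?_⟩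
      · intro l i
        rw [Pool.Agent.Q41.ZP.fac_S S hS (fun s i => e s (Sum.inl i)) (ro l) i]
        exact he.1 l i
      · intro l i j hij
        rw [Pool.Agent.Q41.ZP.fac_S S hS (fun s i => e s (Sum.inl i)) (ro l) i,
          Pool.Agent.Q41.ZP.fac_S S hS (fun s i => e s (Sum.inl i)) (ro l) j]
        exact he.2.1 l i j hij
      · intro I hI γ hγ
        refine he.2.2 I hI γ fun l hl => ?_
        rw [← hγ l hl]
        refine Finset.sum_congr rfl fun j _ => ?_
        rw [Pool.Agent.Q41.ZP.fac_S S hS (fun s j => e s (Sum.inr j)) (ro l) j]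
    have hcount := Pool.Agent.Q116.ZE.count_good (K := S) (α := (g : Fin r) × Fin (n g)) q β ro hro H
    have hn0 : Fintype.card ((g : Fin r) × Fin (n g)) = ∑ g, n g := by
      rw [Fintype.card_sigma]
      simp
    rw [Fintype.card_coe, hn0] at hcount
    set n₀ := ∑ g, n g with hn₀
    set L := (q - 1) * 2 ^ q + 1 with hLdef
    have h1 : Set.ncard {e : S → Ind n q → ℕ | (∀ s i, 1 ≤ e s i ∧ e s i ≤ H) ∧
          ¬ ∀ c : Ind n q → ℂ, IsScaling β c (fun i => ∏ s : S, (s : ℕ) ^ e s (Sum.inl i))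
            (fun j => ∏ s : S, (s : ℕ) ^ e s (Sum.inr j)) →
            NoAtypical K Γe Γm m (scaled (A := A) (B := B) G a b c)} ≤
        (L * n₀ * (β + H / β) + L * n₀ ^ 2 * (H / (2 * β) + 1) + q * L ^ q) *
          H ^ (S.card * (n₀ + q) - 1) := by
      refine le_trans ?_ hcount
      rw [← Set.ncard_coe_finset]
      refine Set.ncard_le_ncard_of_injOn (fun e z => e z.1 z.2) ?_ ?_ (Finset.finite_toSet _)
      · rintro e ⟨he1, he2⟩
        rw [Finset.mem_coe, Finset.mem_filter, Fintype.mem_piFinset]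
        exact ⟨fun z => Finset.mem_Icc.2 (he1 z.1 z.2), fun h => he2 (hgood e h)⟩
      · intro e _ e' _ h
        funext s i
        exact congrFun h (s, i)
    refine (Nat.cast_le.2 h1).trans ?_
    have hβ0 : (0 : ℝ) < β := by exact_mod_cast hβ.pos
    have h2 : ((H / β : ℕ) : ℝ) ≤ (H : ℝ) / β := Nat.cast_div_le
    have h3 : ((H / (2 * β) : ℕ) : ℝ) ≤ (H : ℝ) / (2 * β) := by
      have h4 : ((H / (2 * β) : ℕ) : ℝ) ≤ (H : ℝ) / ((2 * β : ℕ) : ℝ) := Nat.cast_div_le
      push_cast at h4
      exact h4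
    have h4 : (n₀ : ℝ) * ((H : ℝ) * (H : ℝ) ^ (S.card * (n₀ + q) - 1)) =
        n₀ * (H : ℝ) ^ (S.card * (n₀ + q)) := by
      rcases Nat.eq_zero_or_pos n₀ with h | h
      · rw [h, Nat.cast_zero, zero_mul, zero_mul]
      · have h5 : 0 < S.card * (n₀ + q) := by
          refine Nat.mul_pos ?_ (by omega)
          have h6 := Finset.card_filter_le S (fun s => D < s)
          omega
        rw [← pow_succ']
        congr 2
        omega
    push_cast
    calc ((L : ℝ) * n₀ * (β + ((H / β : ℕ) : ℝ)) + L * (n₀ : ℝ) ^ 2 * (((H / (2 * β) : ℕ) : ℝ) + 1) +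
            q * (L : ℝ) ^ q) * (H : ℝ) ^ (S.card * (n₀ + q) - 1)
        ≤ ((L : ℝ) * n₀ * (β + (H : ℝ) / β) + L * (n₀ : ℝ) ^ 2 * ((H : ℝ) / (2 * β) + 1) +
            q * (L : ℝ) ^ q) * (H : ℝ) ^ (S.card * (n₀ + q) - 1) := by gcongr
      _ = L * (n₀ + 2) / (2 * β) * ((n₀ : ℝ) * ((H : ℝ) * (H : ℝ) ^ (S.card * (n₀ + q) - 1))) +
          (L * n₀ * (β + n₀) + q * (L : ℝ) ^ q) * (H : ℝ) ^ (S.card * (n₀ + q) - 1) := by
          field_simp
          ring
      _ = _ := by
          rw [h4]
          ring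

end Pool.Agent.Results.MP_dd1803_nt.SUnitScalings
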