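import Pool.Agent.Q116.ZE.Count
import Pool.Agent.Results.MP_dd1803_nt.EllipticScaledImages

/-!
# MP_dd1803_nt: Zilber-Pink in split semiabelian varieties for 100 percent of the scalings by
(roots of) the integral points of a torus

The setting is that of the starting file `EllipticScaledImages`, whose definitions are used here:
`𝔖 = ∏_g E_g^(n_g) × G_m^q` with arbitrary elliptic curves `E_g : y² = x³ + A_g x + B_g`; a complex
projective algebraic set `Y` of any dimension, defined over a countable field `K`, with quotients of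
forms `a_s / b_s`, one for every coordinate `x (P_{g,i})`, `u_j`, no point of `Y` lying on `m + 1` of
their divisors (`IsMap`); and the set `X_c ⊆ 𝔖` of all points with
`x (P_{g,i}) = a_{g,i} (y) / (c_{g,i} b_{g,i} (y))` and `u_j = a_j (y) / (c_j b_j (y))` for a point
`y` of `Y` (`scaled`). `NoAtypical`: `X_c` has no atypical intersection with the translates `Z` of
algebraic subgroups by points of the division hull of a finitely generated subgroup `Γ` of `𝔖 (K)`
(every point of `X_c ∩ Z` has transcendence degree at most `m - codim Z` over `K`, every irreducible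
constructible subset has dimension at most `m - codim Z`). The scalings `c_{g,i}` are `β`-th roots of
positive integers, `β` a large prime number, and the `c_j` are positive integers (`IsScaling`).

The starting file shows that there are no atypical intersections if the exponents of these integers at
`L = (q - 1) 2 ^ q + 1` large primes are in general position, and deduces this for the members of
the one-parameter family `∏_l (k + l) ^ (e_l i)` with few exceptions. Here the parameter is a point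
`u` of a torus of dimension `L`: let `e_l i`, `a'_l j` be exponents with `GoodExp`, and let
`b₁ i`, `b₂ j` be arbitrary positive integers. We show that for almost all `u ∈ {1, …, H}^L` there
are no atypical intersections for `c_{g,i} ^ β = b₁ (g,i) ∏_l u_l ^ (e_l (g,i))`,
`c_j = b₂ j ∏_l u_l ^ (a'_l j)`: for every `y` which is at least `1`, `D` and all `b₁ i`, `b₂ j` the
number of exceptions is at most `L H^(L-1) (log₂ H + 1)^(y+1) + (L² + L) H^L / y`, and so it is
`o(H^L)` (100 percent of all `u`; with `y` about `log H / (2 log log H)` the bound is a constant times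
`H^L log log H / log H`). `D` does not depend on `β`, on the exponents, and on `b₁`, `b₂`.
-/

set_option autoImplicit false

namespace Pool.Agent.Results.MP_dd1803_nt.TorusPointScalings

open MvPolynomial Pool.Agent.W466.EP Pool.Agent.W282.ZP Pool.Agent.W282.LF
open Pool.Agent.Results.MP_dd1803_nt.EllipticScaledImages

/-- Zilber-Pink and Mordell-Lang with no atypical intersections for almost all scalings of a
projective algebraic set mapped to `∏_g E_g^(n_g) × G_m^q` by (roots of) the integral points of a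
torus. -/
theorem result {κ : Type*} (K : Subfield ℂ) [Countable K] (N r q m : ℕ) (A B : Fin r → ℂ)
    (hA : ∀ g, A g ∈ K) (hB : ∀ g, B g ∈ K) (n : Fin r → ℕ)
    (G : κ → MvPolynomial (Fin (N + 1)) K) (a b : Ind n q → MvPolynomial (Fin (N + 1)) K)
    (dg : Ind n q → ℕ) (hY : IsMap G a b dg m)
    (Γe : ∀ g, Finset (crv (A g) (B g)).Point) (hΓe : ∀ g, ∀ P ∈ Γe g, Rat K P)
    (Γm : Finset ℂˣ) (hΓm : ∀ γ ∈ Γm, (γ : ℂ) ∈ K) :
    ∃ M D : ℕ, ∀ β : ℕ, β.Prime → M < β →
      ∀ (e : Fin ((q - 1) * 2 ^ q + 1) → (g : Fin r) × Fin (n g) → ℕ)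
        (a' : Fin ((q - 1) * 2 ^ q + 1) → Fin q → ℕ), GoodExp q β e a' →
      ∀ (b₁ : (g : Fin r) × Fin (n g) → ℕ) (b₂ : Fin q → ℕ), (∀ i, b₁ i ≠ 0) → (∀ j, b₂ j ≠ 0) →
        (∀ y : ℕ, 1 ≤ y → D ≤ y → (∀ i, b₁ i ≤ y) → (∀ j, b₂ j ≤ y) → ∀ H : ℕ,
          (Set.ncard {u : Fin ((q - 1) * 2 ^ q + 1) → ℕ | (∀ l, 1 ≤ u l ∧ u l ≤ H) ∧
            ¬ ∀ c : Ind n q → ℂ, IsScaling β c (fun i => b₁ i * ∏ l, u l ^ e l i)
              (fun j => b₂ j * ∏ l, u l ^ a' l j) →
              NoAtypical K Γe Γm m (scaled (A := A) (B := B) G a b c)} : ℝ) ≤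
          ((q - 1) * 2 ^ q + 1 : ℕ) * (H : ℝ) ^ ((q - 1) * 2 ^ q + 1 - 1) *
              (Nat.log 2 H + 1 : ℕ) ^ (y + 1) +
            ((((q - 1) * 2 ^ q + 1 : ℕ) : ℝ) ^ 2 + ((q - 1) * 2 ^ q + 1 : ℕ)) *
              (H : ℝ) ^ ((q - 1) * 2 ^ q + 1) / y) ∧
        ∀ ε : ℝ, 0 < ε → ∃ H₀ : ℕ, ∀ H : ℕ, H₀ ≤ H →
          (Set.ncard {u : Fin ((q - 1) * 2 ^ q + 1) → ℕ | (∀ l, 1 ≤ u l ∧ u l ≤ H) ∧
            ¬ ∀ c : Ind n q → ℂ, IsScaling β c (fun i => b₁ i * ∏ l, u l ^ e l i)
              (fun j => b₂ j * ∏ l, u l ^ a' l j) →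
              NoAtypical K Γe Γm m (scaled (A := A) (B := B) G a b c)} : ℝ) ≤
          ε * (H : ℝ) ^ ((q - 1) * 2 ^ q + 1) := by
  classical
  obtain ⟨M, D, C, hD⟩ := EllipticScaledImages.result K N r q m A B hA hB n G a b dg hY Γe hΓe Γm
    hΓm
  refine ⟨M, D, fun β hβ hMβ e a' hea b₁ b₂ hb₁ hb₂ => ?_⟩
  obtain ⟨hmain, -⟩ := hD β hβ hMβ
  have hfirst : ∀ y : ℕ, 1 ≤ y → D ≤ y → (∀ i, b₁ i ≤ y) → (∀ j, b₂ j ≤ y) → ∀ H : ℕ,
          (Set.ncard {u : Fin ((q - 1) * 2 ^ q + 1) → ℕ | (∀ l, 1 ≤ u l ∧ u l ≤ H) ∧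
            ¬ ∀ c : Ind n q → ℂ, IsScaling β c (fun i => b₁ i * ∏ l, u l ^ e l i)
              (fun j => b₂ j * ∏ l, u l ^ a' l j) →
              NoAtypical K Γe Γm m (scaled (A := A) (B := B) G a b c)} : ℝ) ≤
          ((q - 1) * 2 ^ q + 1 : ℕ) * (H : ℝ) ^ ((q - 1) * 2 ^ q + 1 - 1) *
              (Nat.log 2 H + 1 : ℕ) ^ (y + 1) +
            ((((q - 1) * 2 ^ q + 1 : ℕ) : ℝ) ^ 2 + ((q - 1) * 2 ^ q + 1 : ℕ)) *
              (H : ℝ) ^ ((q - 1) * 2 ^ q + 1) / y := by
    intro y hy hDy h1y h2y H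
    refine le_trans ?_ (Pool.Agent.Q116.ZE.count_u' ((q - 1) * 2 ^ q + 1) hy H)
    rw [← Set.ncard_coe_finset]
    refine Nat.cast_le.2 (Set.ncard_le_ncard ?_ (Finset.finite_toSet _))
    rintro u ⟨hu1, hu2⟩
    rw [Finset.mem_coe, Finset.mem_filter, Fintype.mem_piFinset]
    refine ⟨fun l => Finset.mem_Icc.2 (hu1 l), ?_⟩
    rintro ⟨p, hp, hpp⟩
    apply hu2
    intro c hc
    refine hmain c _ _ hc (Pool.Agent.Q116.ZE.spreadE_of_primes hea
      (fun l => by have := (hu1 l).1; omega) hb₁ hb₂ p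
      (fun l => ⟨(hp l).1, lt_of_le_of_lt hDy (hp l).2.1⟩) (fun l => (hp l).2.2.1)
      (fun l => (hp l).2.2.2) hpp ?_ ?_)
    · intro l i h
      have h4 := Nat.le_of_dvd (Nat.pos_of_ne_zero (hb₁ i)) h
      have h5 := (hp l).2.1
      have h6 := h1y i
      omega
    · intro l i h
      have h4 := Nat.le_of_dvd (Nat.pos_of_ne_zero (hb₂ i)) h
      have h5 := (hp l).2.1
      have h6 := h2y i
      omega
  refine ⟨hfirst, fun ε hε => ?_⟩
  obtain ⟨y, hYy, H₀, hH₀⟩ := Pool.Agent.Q116.ZE.small_bound' ((q - 1) * 2 ^ q + 1)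
    (D + ∑ i, b₁ i + ∑ j, b₂ j + 1) hε
  refine ⟨H₀, fun H hH => (hfirst y (by omega) (by omega) (fun i => ?_) (fun j => ?_) H).trans
    (hH₀ H hH)⟩
  · have h1 : b₁ i ≤ ∑ i, b₁ i := Finset.single_le_sum (fun i _ => Nat.zero_le _)
      (Finset.mem_univ i)
    omega
  · have h1 : b₂ j ≤ ∑ j, b₂ j := Finset.single_le_sum (fun i _ => Nat.zero_le _)
      (Finset.mem_univ j)
    omega

end Pool.Agent.Results.MP_dd1803_nt.TorusPointScalings
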